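import Mathlib
import Pool.Agent.Helper56.SS.StepsDefs
import Pool.Agent.Helper49.FA.Defs

/-!
# Hopf algebras built from `C` by extensions: definitions

`HopfExact` and `ActsThrough` are defined in `Pool/Agent/Helper56/SS/StepsDefs.lean`, `TwistActs` and
`LiftedActs` in `Pool/Agent/Helper49/FA/Defs.lean`.
-/

set_option autoImplicit false

open Pool.Agent.Helper56.SS Pool.Agent.Helper49.FA

namespace Pool.Agent.Helper49.ES

universe u

/-- One of the following holds: `A` is semisimple, or there is a semisimple quotient Hopf algebra
`q : B → D` of `B` such that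
* `B` acts on `A` through `D` (for `D = k` this says that `A` is central), or
* `k` has characteristic `p > 0`, `A` is commutative and generated by a stable subspace `U` of primitive
  elements, and `B` acts on `U^(1)` through `D`, or
* `k` has characteristic `p > 0`, `A` is commutative and the adjoint action of `B` on `A` has a
  thickening `P → A` on whose kernel `B` acts through `D`, with central matrix coefficients. -/
def Admissible (k : Type u) [Field k] {A B : Type u} [Ring A] [Ring B] [HopfAlgebra k A]
    [HopfAlgebra k B] (ι : A →ₐc[k] B) : Prop :=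
  IsSemisimpleRing A ∨
    ∃ (D : Type u) (_ : Ring D) (_ : HopfAlgebra k D) (q : B →ₐc[k] D), IsSemisimpleRing D ∧
      (ActsThrough k ι q ∨
        ∃ p : ℕ, p.Prime ∧ CharP k p ∧ (TwistActs k p ι q ∨ LiftedActs k p ι q))

/-- `A` is a Hopf subalgebra of `B` and `k` is a direct summand of the `B`-module `B ⊗_A k`: there is an
element `t` of `B` with `ε(t) = 1` and `b t - ε(b) t` in the left ideal `B A⁺` for all `b` (for
instance, if `A` is normal and `B // A` is semisimple). -/
def RelSummand (k : Type u) [Field k] {A B : Type u} [Ring A] [Ring B] [HopfAlgebra k A]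
    [HopfAlgebra k B] (ι : A →ₐc[k] B) : Prop :=
  Function.Injective ι ∧ ∃ t : B, Coalgebra.counit (R := k) t = 1 ∧
    ∀ b : B, b * t - Coalgebra.counit (R := k) b • t ∈
      Ideal.span (ι '' {a : A | Coalgebra.counit (R := k) a = 0})

/-- There is a homomorphism of algebras `φ : B → B'` such that `B'` is a projective `B`-module (for
instance, if `B` is a Hopf subalgebra of the finite-dimensional Hopf algebra `B'`, or isomorphic to
`B'` as an algebra). -/
def ProjOver (k : Type u) [Field k] (B B' : Type u) [Ring B] [Ring B'] [Algebra k B]
    [Algebra k B'] : Prop :=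
  ∃ φ : B →ₐ[k] B',
    Module.Projective B ((ModuleCat.restrictScalars φ.toRingHom).obj (ModuleCat.of B' B'))

/-- `ExtSteps k C B`: the Hopf algebra `B` is reached from the Hopf algebra `C` by finitely many
steps of the following kinds. -/
inductive ExtSteps (k : Type u) [Field k] (C : Type u) [Ring C] [HopfAlgebra k C] :
    (B : Type u) → [Ring B] → [HopfAlgebra k B] → Prop
  /-- no step -/
  | refl : ExtSteps k C C
  /-- from `B'` to `B` in an exact sequence `A → B → B'` with `A` as in `Admissible` -/
  | ker {A B B' : Type u} [Ring A] [Ring B] [Ring B'] [HopfAlgebra k A] [HopfAlgebra k B]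
      [HopfAlgebra k B'] (ι : A →ₐc[k] B) (π : B →ₐc[k] B') (hex : HopfExact k ι π)
      (hι : Admissible k ι) (h : ExtSteps k C B') : ExtSteps k C B
  /-- from a Hopf subalgebra `A` of `B` to `B`, if `k` is a direct summand of `B ⊗_A k` -/
  | up {A B : Type u} [Ring A] [Ring B] [HopfAlgebra k A] [HopfAlgebra k B] (ι : A →ₐc[k] B)
      (hι : RelSummand k ι) (h : ExtSteps k C A) : ExtSteps k C B
  /-- from a finite-dimensional Hopf algebra `B'` to `B`, if `B'` is a projective `B`-module for some
  homomorphism of algebras `B → B'` -/
  | proj {B B' : Type u} [Ring B] [Ring B'] [HopfAlgebra k B] [HopfAlgebra k B']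
      [Module.Finite k B'] (hp : ProjOver k B B') (h : ExtSteps k C B') : ExtSteps k C B

end Pool.Agent.Helper49.ES
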