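import Pool.Agent.Helper56.SS.Shap

/-!
# Finite generation passes along `B → B'` if `B'` is projective over `B`

The homomorphism of algebras `φ : B → B'` need not be compatible with the counits: it can be composed
with a winding automorphism of `B`.
-/

set_option linter.unusedSectionVars false
set_option autoImplicit false

open CategoryTheory CategoryTheory.Abelian CategoryTheory.Limits
open scoped ModuleCat TensorProduct
open Pool.Agent.Helper59.FG Pool.Agent.Helper90.FC Pool.Agent.Helper56.SS

namespace Pool.Agent.Helper49.ES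

universe u

section

variable {k : Type u} [Field k] {B : Type u} [Ring B] [HopfAlgebra k B]

/-- `x ⊗ y ↦ χ(y) x`. -/
noncomputable def rch (χ : B →ₐ[k] k) : B ⊗[k] B →ₐ[k] B :=
  (Algebra.TensorProduct.rid k k B).toAlgHom.comp (Algebra.TensorProduct.map (AlgHom.id k B) χ)

theorem rch_tmul (χ : B →ₐ[k] k) (x y : B) : rch χ (x ⊗ₜ y) = χ y • x := by
  simp [rch]

/-- `b ↦ ∑ b₁ χ(b₂)`. -/
noncomputable def wnd (χ : B →ₐ[k] k) : B →ₐ[k] B := (rch χ).comp (Bialgebra.comulAlgHom k B)

theorem wnd_apply (χ : B →ₐ[k] k) (b : B) : wnd χ b = rch χ (Coalgebra.comul (R := k) b) := rfl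

theorem counit_wnd (χ : B →ₐ[k] k) (b : B) : Coalgebra.counit (R := k) (wnd χ b) = χ b := by
  have h : ∀ t : B ⊗[k] B, Coalgebra.counit (R := k) (rch χ t) =
      χ (TensorProduct.lid k B ((Coalgebra.counit (R := k) (A := B)).rTensor B t)) := by
    intro t
    induction t using TensorProduct.induction_on with
    | zero => simp
    | add s t hs ht => simp only [map_add, hs, ht]
    | tmul x y =>
      rw [rch_tmul, map_smul, LinearMap.rTensor_tmul, TensorProduct.lid_tmul, map_smul, smul_eq_mul,
        smul_eq_mul, mul_comm]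
  rw [wnd_apply, h, Coalgebra.rTensor_counit_comul, TensorProduct.lid_tmul, one_smul]

theorem comul_wnd (χ : B →ₐ[k] k) (b : B) : Coalgebra.comul (R := k) (wnd χ b) =
    (wnd χ).toLinearMap.lTensor B (Coalgebra.comul (R := k) b) := by
  have h : ∀ t : B ⊗[k] B, Coalgebra.comul (R := k) (rch χ t) =
      (rch χ).toLinearMap.lTensor B (TensorProduct.assoc k B B B
        ((Coalgebra.comul (R := k) (A := B)).rTensor B t)) := by
    intro t
    induction t using TensorProduct.induction_on with
    | zero => simp
    | add s t hs ht => simp only [map_add, hs, ht]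
    | tmul x y =>
      rw [rch_tmul, map_smul, LinearMap.rTensor_tmul]
      have h1 : ∀ s : B ⊗[k] B, χ y • s = (rch χ).toLinearMap.lTensor B
          (TensorProduct.assoc k B B B (s ⊗ₜ[k] y)) := by
        intro s
        induction s using TensorProduct.induction_on with
        | zero => simp
        | add s t hs ht => rw [smul_add, hs, ht, TensorProduct.add_tmul, map_add, map_add]
        | tmul u v =>
          rw [TensorProduct.assoc_tmul, LinearMap.lTensor_tmul]
          change _ = u ⊗ₜ[k] (rch χ (v ⊗ₜ[k] y))
          rw [rch_tmul, TensorProduct.tmul_smul]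
      exact h1 _
  have h2 : (wnd χ).toLinearMap = (rch χ).toLinearMap ∘ₗ Coalgebra.comul (R := k) (A := B) := rfl
  rw [wnd_apply, h, Coalgebra.coassoc_apply, h2, LinearMap.lTensor_comp, LinearMap.comp_apply]

theorem wnd_inj (χ : B →ₐ[k] k) : Function.Injective (wnd χ) := by
  let g : B →ₗ[k] k := χ.toLinearMap ∘ₗ HopfAlgebra.antipode k
  -- `χ S` is inverse to `χ`
  have h1 : g ∘ₗ (wnd χ).toLinearMap = Coalgebra.counit (R := k) (A := B) := by
    ext b
    have h : ∀ t : B ⊗[k] B, g (rch χ t) =
        χ (LinearMap.mul' k B ((HopfAlgebra.antipode k (A := B)).rTensor B t)) := by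
      intro t
      induction t using TensorProduct.induction_on with
      | zero => simp
      | add s t hs ht => simp only [map_add, hs, ht]
      | tmul x y =>
        rw [rch_tmul, map_smul, LinearMap.rTensor_tmul, LinearMap.mul'_apply, map_mul, smul_eq_mul,
          mul_comm]
        rfl
    change g (rch χ (Coalgebra.comul (R := k) b)) = _
    rw [h, HopfAlgebra.mul_antipode_rTensor_comul_apply, AlgHom.commutes]
    rfl
  have h2 : ∀ b, TensorProduct.rid k B (g.lTensor B (Coalgebra.comul (R := k) (wnd χ b))) = b := by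
    intro b
    rw [comul_wnd, ← LinearMap.comp_apply, ← LinearMap.lTensor_comp, h1,
      Coalgebra.lTensor_counit_comul, TensorProduct.rid_tmul, one_smul]
  intro b b' h
  rw [← h2 b, h, h2 b']

/-- Finite generation passes along `B → B'` if `B'` is a projective `B`-module. -/
theorem fge_proj {B' : Type u} [Ring B'] [HopfAlgebra k B'] [Module.Finite k B]
    [Module.Finite k B'] (φ : B →ₐ[k] B')
    (hφ : Module.Projective B ((ModuleCat.restrictScalars φ.toRingHom).obj (ModuleCat.of B' B')))
    (h : FGE k B') : FGE k B := by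
  let χ : B →ₐ[k] k := (Bialgebra.counitAlgHom k B').comp φ
  have hbij : Function.Bijective (wnd χ) :=
    ⟨wnd_inj χ, (LinearMap.injective_iff_surjective (f := (wnd χ).toLinearMap)).1 (wnd_inj χ)⟩
  let e : B ≃ₐ[k] B := AlgEquiv.ofBijective (wnd χ) hbij
  let ψ : B →ₐ[k] B' := φ.comp e.symm.toAlgHom
  have hψ : Aug ψ := by
    intro b
    obtain ⟨c, rfl⟩ := e.surjective b
    change Coalgebra.counit (R := k) (φ (e.symm (e c))) = Coalgebra.counit (R := k) (wnd χ c)
    rw [e.symm_apply_apply, counit_wnd]
    rfl
  refine fge_sub ψ hψ ?_ h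
  have inst1 : RingHomInvPair (e.toRingEquiv : B →+* B) (e.toRingEquiv.symm : B →+* B) :=
    RingHomInvPair.of_ringEquiv _
  have inst2 : RingHomInvPair (e.toRingEquiv.symm : B →+* B) (e.toRingEquiv : B →+* B) :=
    RingHomInvPair.symm _ _
  let E : ((ModuleCat.restrictScalars φ.toRingHom).obj (ModuleCat.of B' B')) ≃ₛₗ[(e.toRingEquiv : B →+* B)]
      ((res ψ).obj (ModuleCat.of B' B')) :=
    { toFun := fun x => (show B' from x)
      invFun := fun x => (show B' from x)
      left_inv := fun _ => rfl
      right_inv := fun _ => rfl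
      map_add' := fun _ _ => rfl
      map_smul' := fun b x => by
        change φ b * (show B' from x) = φ (e.symm (e b)) * (show B' from x)
        rw [e.symm_apply_apply] }
  exact Module.Projective.of_equiv E

end

end Pool.Agent.Helper49.ES
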