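import Pool.Agent.Helper49.ES.Defs
import Pool.Agent.Helper49.ES.Proj
import Pool.Agent.Helper49.FA.Main
import Pool.Agent.Helper90.FC.Iter

/-!
# Finite generation passes along the steps
-/

set_option linter.unusedSectionVars false
set_option autoImplicit false

open CategoryTheory CategoryTheory.Abelian CategoryTheory.Limits DirectSum
open scoped ModuleCat TensorProduct
open Pool.Agent.Helper59.FG Pool.Agent.Helper90.FC Pool.Agent.Helper90.UN
open Pool.Agent.Helper56.SS Pool.Agent.Helper49.FA

namespace Pool.Agent.Helper49.ES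

universe u

section

variable {k : Type u} [Field k]

/-- The step from `B'` to `B` for an admissible kernel. -/
theorem fge_admissible {A B B' : Type u} [Ring A] [Ring B] [Ring B'] [HopfAlgebra k A]
    [HopfAlgebra k B] [HopfAlgebra k B'] [Module.Finite k B] (ι : A →ₐc[k] B) (π : B →ₐc[k] B')
    (hex : HopfExact k ι π) (hι : Admissible k ι) (hB' : FGE k B') : FGE k B := by
  rcases hι with hA | ⟨D, _, _, q, hD, hq⟩
  · exact fge_ker ι π hex hB'
  · rcases hq with hq | ⟨p, hp, hk, hq⟩
    · exact fge_act ι π q hex.inj hex.surj hq.surj hex.ker hq.act hB'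
    · have hF : Fact p.Prime := ⟨hp⟩
      rcases hq with hq | hq
      · exact fge_twist p ι π q hex hq hB'
      · exact fge_lift p ι π q hex hq hB'

/-- The FGC property passes along the steps. -/
theorem extSteps_fgc {C : Type u} [Ring C] [HopfAlgebra k C] (hC : Module.Finite k C → FGC k C)
    {B : Type u} [Ring B] [HopfAlgebra k B] (h : ExtSteps k C B) (hB : Module.Finite k B) :
    FGC k B := by
  induction h with
  | refl => exact hC hB
  | ker ι π hex hι h ih =>
    have hf := finite_of_surj' π hex.surj
    exact fgc_of_fge (fge_admissible ι π hex hι (fge_of_fgc (ih hf)))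
  | up ι hι h ih =>
    obtain ⟨hι, t, ht, hb⟩ := hι
    have hf := finite_of_inj ι hι
    exact fgc_of_fge (fge_avg ι hι ⟨ht, hb⟩ (fge_of_fgc (ih hf)))
  | proj hp h ih =>
    obtain ⟨φ, hφ⟩ := hp
    exact fgc_of_fge (fge_proj φ hφ (fge_of_fgc (ih inferInstance)))

/-- The form with (fg1') and (fg2'). -/
theorem extSteps_fgh {C : Type u} [Ring C] [HopfAlgebra k C] (hC : FGH k C ∨ IsSemisimpleRing C)
    {B : Type u} [Ring B] [HopfAlgebra k B] [hB : Module.Finite k B] (h : ExtSteps k C B) :
    Algebra.FiniteType k (⨁ n, EndExt (trivObj k B) n) ∧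
    ∀ M N : ModuleCat.{u} B, Module.Finite B M → Module.Finite B N →
      Module.Finite (⨁ n, EndExt (trivObj k B) n) (⨁ n, ActExt M N n) := by
  have h1 : FGC k B := by
    refine extSteps_fgc (fun hf => ?_) h hB
    rcases hC with hC | hC
    · exact fgc_of_fgh hC
    · exact fgc_semisimple
  exact ⟨h1.1, fun M N _ _ => finite_of_fge (fge_of_fgc h1) M N⟩

end

end Pool.Agent.Helper49.ES
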